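import Pool.Agent.W710.DP.Stm1

set_option autoImplicit false

namespace Pool.Agent.W705.DP

open Pool.Agent.W710.DP

theorem lt_mem {w : List Letter} {i : ℕ} (hi : i < w.length) : lt w i ∈ w := by
  unfold lt
  rw [List.getD_eq_getElem _ _ hi]
  exact List.getElem_mem hi

theorem t_col : S_col := by
  intro b T e w hP hG ζ κ hκ0 hκ hg
  obtain ⟨he, hb, hTb⟩ := hP
  have key : ∀ i : ℕ, i < w.length → e - ((i : ℝ) + 1) * κ ≤ ζ.2 i ∧ ζ.2 i ≤ T - e + ((i : ℝ) + 1) * κ := by
    intro i
    induction i with
    | zero =>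
      intro hi
      have h1 := abs_le.1 (hg 0 hi)
      have hz := (hG _ (lt_mem hi)).zero (ζ.1 0) (ζ.2 0)
      unfold gradX at h1
      rw [if_pos hi] at h1
      have hsm : sm b ζ 0 = b := if_pos rfl
      rw [hsm] at h1
      push_cast
      constructor
      · by_cases h : ζ.2 0 ≤ e
        · have h2 := (hz (Or.inl h)).2.1
          rw [h2] at h1
          linarith [h1.1, h1.2]
        · linarith
      · by_cases h : T - e ≤ ζ.2 0
        · have h2 := (hz (Or.inr h)).2.1
          rw [h2] at h1
          linarith [h1.1, h1.2]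
        · linarith
    | succ i ih =>
      intro hi
      obtain ⟨ih1, ih2⟩ := ih (by omega)
      have h1 := abs_le.1 (hg (i + 1) hi)
      have hz := (hG _ (lt_mem hi)).zero (ζ.1 (i + 1)) (ζ.2 (i + 1))
      unfold gradX at h1
      rw [if_pos hi] at h1
      have hsm : sm b ζ (i + 1) = ζ.2 i := by
        unfold sm
        rw [if_neg (by omega)]
        rfl
      rw [hsm] at h1
      push_cast
      have hi0 : (0:ℝ) ≤ i := Nat.cast_nonneg _
      have hm : 0 ≤ (i : ℝ) * κ := mul_nonneg hi0 hκ0
      constructor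
      · by_cases h : ζ.2 (i + 1) ≤ e
        · have h2 := (hz (Or.inl h)).2.1
          rw [h2] at h1
          linarith [h1.1, h1.2]
        · linarith
      · by_cases h : T - e ≤ ζ.2 (i + 1)
        · have h2 := (hz (Or.inr h)).2.1
          rw [h2] at h1
          linarith [h1.1, h1.2]
        · linarith
  intro i hi
  obtain ⟨k1, k2⟩ := key i hi
  have h3 : ((i : ℝ) + 1) * κ ≤ w.length * κ := by
    apply mul_le_mul_of_nonneg_right _ hκ0
    exact_mod_cast hi
  constructor <;> linarith

end Pool.Agent.W705.DP
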